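import Pool.Agent.Helper50_PN.Stmts
import Pool.Agent.Helper1_PGH.Ht

/-!
# Squad PN, module CNT: counting the places of the strata
-/

set_option autoImplicit false

universe u

open MvPolynomial PGH PGL

namespace Pool.Agent.PN.H40

section aux

variable {k E : Type*} [Field k] [Field E] [Algebra k E]

/-- the excess of the coordinate `x` at the place `P` -/
noncomputable def exc {N : ℕ} (a : Fin N → k) (x : E) (P : Place k E) : ℤ :=
  ∑ j, max 0 (P.ord (x - algebraMap k E (a j)) - 1)

theorem exc_nonneg {N : ℕ} (a : Fin N → k) (x : E) (P : Place k E) : 0 ≤ exc a x P :=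
  Finset.sum_nonneg fun _ _ => le_max_left _ _

/-- the order of vanishing of the product of the `x - a j` -/
theorem zer_le {n N : ℕ} (a : Fin n → Fin N → k) (x : Fin n → E) (P : Place k E) (l : Fin n)
    (ha : Function.Injective (a l)) (hne : ∀ j, x l - algebraMap k E (a l j) ≠ 0) :
    ∑ j, max 0 (P.ord (x l - algebraMap k E (a l j))) ≤
      (if l ∈ Is a x P then 1 else 0) + 2 * exc (a l) (x l) P := by
  classical
  by_cases h : ∃ j, 1 ≤ P.ord (x l - algebraMap k E (a l j))
  · obtain ⟨j, hj⟩ := h
    have hoth : ∀ i, i ≠ j → P.ord (x l - algebraMap k E (a l i)) ≤ 0 := by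
      intro i hi
      by_contra hcon
      apply hi
      apply ha
      exact P.res_unique ((P.ge_iff (hne i)).2 (by omega)) ((P.ge_iff (hne j)).2 hj)
    have h1 : ∑ i, max 0 (P.ord (x l - algebraMap k E (a l i))) =
        P.ord (x l - algebraMap k E (a l j)) := by
      rw [Finset.sum_eq_single j]
      · exact max_eq_right (by omega)
      · intro i _ hi
        exact max_eq_left (hoth i hi)
      · intro hj'
        exact absurd (Finset.mem_univ j) hj'
    have h2 : exc (a l) (x l) P = P.ord (x l - algebraMap k E (a l j)) - 1 := by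
      unfold exc
      rw [Finset.sum_eq_single j]
      · exact max_eq_right (by omega)
      · intro i _ hi
        have := hoth i hi
        exact max_eq_left (by omega)
      · intro hj'
        exact absurd (Finset.mem_univ j) hj'
    rw [h1, h2]
    by_cases h3 : l ∈ Is a x P
    · rw [if_pos h3]
      omega
    · rw [if_neg h3]
      have h4 : P.ord (x l - algebraMap k E (a l j)) ≠ 1 := by
        intro h5
        apply h3
        unfold Is
        rw [Finset.mem_filter]
        exact ⟨Finset.mem_univ l, j, h5⟩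
      omega
  · push Not at h
    have h1 : ∑ i, max 0 (P.ord (x l - algebraMap k E (a l i))) = 0 := by
      apply Finset.sum_eq_zero
      intro i _
      have := h i
      exact max_eq_left (by omega)
    rw [h1]
    have h2 := exc_nonneg (a l) (x l) P
    split_ifs <;> omega

end aux

/-- CNT: counting the places of the strata -/
theorem cnt (hram : RamStmt.{u}) : CntStmt.{u} := by
  classical
  intro k E _ _ _ _ _ _ D cp sc sb hD hcp hDP n N a x ha hx hsb
  have htr : ∀ l, Transcendental k (x l) := by
    intro l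
    rw [PGH.transcendental_iff]
    intro c hc
    apply hx l
    rw [← hc]
    exact hD c
  have hne : ∀ l j, x l - algebraMap k E (a l j) ≠ 0 := by
    intro l j h0
    apply hx l
    rw [sub_eq_zero.1 h0]
    exact hD _
  have hz : ∀ l j, ∃ s : Finset (Place k E),
      (∀ P, P ∈ s ↔ P.Ge 1 (x l - algebraMap k E (a l j))) ∧
      ∑ P ∈ s, P.ord (x l - algebraMap k E (a l j)) = ht k (x l) :=
    fun l j => exists_zeros_sub (htr l) (a l j)
  choose Z hZ hZs using hz
  set W : Finset (Place k E) := Finset.univ.biUnion fun l => Finset.univ.biUnion fun j => Z l j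
    with hW
  have hZW : ∀ l j, Z l j ⊆ W := by
    intro l j P hP
    rw [hW, Finset.mem_biUnion]
    refine ⟨l, Finset.mem_univ l, ?_⟩
    rw [Finset.mem_biUnion]
    exact ⟨j, Finset.mem_univ j, hP⟩
  set sn : Finset (Place k E) := W.filter fun P =>
    cp P = 0 ∧ (∀ l, P.Ge 0 (x l)) ∧ 2 ≤ (Is a x P).card with hsn
  refine ⟨sn, fun P hP => (Finset.mem_filter.1 hP).2, ?_⟩
  -- the local inequality
  have hloc : ∀ P : Place k E, ((Is a x P).card : ℤ) ≤
      (if P ∈ sn then ((Is a x P).card : ℤ) else 0) + n * ∑ l, max 0 (-P.ord (x l)) +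
        n * (cp P : ℤ) + (if P ∈ sb then 1 else 0) + ∑ l, exc (a l) (x l) P := by
    intro P
    have hcard : ((Is a x P).card : ℤ) ≤ n := by
      have h1 := Finset.card_le_univ (Is a x P)
      rw [Fintype.card_fin] at h1
      exact_mod_cast h1
    have hp : (0 : ℤ) ≤ ∑ l, max 0 (-P.ord (x l)) :=
      Finset.sum_nonneg fun _ _ => le_max_left _ _
    have he : (0 : ℤ) ≤ ∑ l, exc (a l) (x l) P :=
      Finset.sum_nonneg fun l _ => exc_nonneg _ _ _
    have hc : (0 : ℤ) ≤ (cp P : ℤ) := Int.natCast_nonneg _
    have hn : (0 : ℤ) ≤ (n : ℤ) := Int.natCast_nonneg _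
    have hif : (0 : ℤ) ≤ (if P ∈ sb then 1 else 0) := by split_ifs <;> norm_num
    have hif' : (0 : ℤ) ≤ (if P ∈ sn then ((Is a x P).card : ℤ) else 0) := by
      split_ifs
      · exact Int.natCast_nonneg _
      · exact le_rfl
    have hnp : (0 : ℤ) ≤ n * ∑ l, max 0 (-P.ord (x l)) := mul_nonneg hn hp
    have hnc : (0 : ℤ) ≤ n * (cp P : ℤ) := mul_nonneg hn hc
    by_cases hreg : ∀ l, P.Ge 0 (x l)
    · by_cases hcP : cp P = 0
      · rcases Nat.lt_or_ge (Is a x P).card 2 with h2 | h2
        · rcases Nat.lt_or_ge (Is a x P).card 1 with h1 | h1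
          · have h0 : ((Is a x P).card : ℤ) = 0 := by
              have : (Is a x P).card = 0 := by omega
              rw [this]
              rfl
            rw [h0] at hif' ⊢
            linarith
          · have h0 : (Is a x P).card = 1 := by omega
            have hkey : (1 : ℤ) ≤ (if P ∈ sb then 1 else 0) + ∑ l, exc (a l) (x l) P := by
              by_cases hPb : P ∈ sb
              · rw [if_pos hPb]
                linarith
              · obtain ⟨l, hl⟩ := Finset.card_eq_one.1 h0
                have hlm : l ∈ Is a x P := by rw [hl]; exact Finset.mem_singleton_self l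
                unfold Is at hlm
                obtain ⟨j, hj⟩ := (Finset.mem_filter.1 hlm).2
                obtain ⟨l', j', hne', hge⟩ := hsb P hPb hreg l j hj
                have hll : l' ≠ l := by
                  rintro rfl
                  apply hne'
                  have hjj : j' = j := by
                    apply ha l'
                    exact P.res_unique hge ((P.ge_iff (hne l' j)).2 (by omega))
                  rw [hjj]
                have hnot : l' ∉ Is a x P := by
                  rw [hl, Finset.mem_singleton]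
                  exact hll
                have hord : 2 ≤ P.ord (x l' - algebraMap k E (a l' j')) := by
                  have h3 := (P.ge_iff (hne l' j')).1 hge
                  have h4 : P.ord (x l' - algebraMap k E (a l' j')) ≠ 1 := by
                    intro h5
                    apply hnot
                    unfold Is
                    rw [Finset.mem_filter]
                    exact ⟨Finset.mem_univ l', j', h5⟩
                  omega
                have h6 : (1 : ℤ) ≤ exc (a l') (x l') P := by
                  calc (1 : ℤ) ≤ max 0 (P.ord (x l' - algebraMap k E (a l' j')) - 1) :=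
                        le_max_of_le_right (by omega)
                    _ ≤ exc (a l') (x l') P :=
                        Finset.single_le_sum
                          (f := fun j => max 0 (P.ord (x l' - algebraMap k E (a l' j)) - 1))
                          (fun _ _ => le_max_left _ _) (Finset.mem_univ j')
                have h7 : exc (a l') (x l') P ≤ ∑ l, exc (a l) (x l) P :=
                  Finset.single_le_sum (f := fun l => exc (a l) (x l) P)
                    (fun l _ => exc_nonneg _ _ _) (Finset.mem_univ l')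
                linarith
            rw [h0] at hif' ⊢
            push_cast at hif' ⊢
            linarith
        · have hPW : P ∈ W := by
            have hne2 : (Is a x P).Nonempty := Finset.card_pos.1 (by omega)
            obtain ⟨l, hl⟩ := hne2
            unfold Is at hl
            obtain ⟨j, hj⟩ := (Finset.mem_filter.1 hl).2
            exact hZW l j ((hZ l j P).2 ((P.ge_iff (hne l j)).2 (by omega)))
          have hPs : P ∈ sn := Finset.mem_filter.2 ⟨hPW, hcP, hreg, h2⟩
          rw [if_pos hPs]
          linarith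
      · have h1 : (1 : ℤ) ≤ (cp P : ℤ) := by
          have : 1 ≤ cp P := Nat.one_le_iff_ne_zero.2 hcP
          exact_mod_cast this
        have h2 : (n : ℤ) ≤ n * (cp P : ℤ) := le_mul_of_one_le_right hn h1
        linarith
    · push Not at hreg
      obtain ⟨l, hl⟩ := hreg
      have hx0 : x l ≠ 0 := by
        intro h0
        apply hx l
        rw [h0, map_zero]
      have h1 : P.ord (x l) < 0 := by
        by_contra h2
        exact hl ((P.ge_iff hx0).2 (by omega))
      have h2 : (1 : ℤ) ≤ ∑ l, max 0 (-P.ord (x l)) := by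
        calc (1 : ℤ) ≤ max 0 (-P.ord (x l)) := le_max_of_le_right (by omega)
          _ ≤ ∑ l, max 0 (-P.ord (x l)) :=
            Finset.single_le_sum (f := fun l => max 0 (-P.ord (x l)))
              (fun _ _ => le_max_left _ _) (Finset.mem_univ l)
      have h3 : (n : ℤ) ≤ n * ∑ l, max 0 (-P.ord (x l)) := le_mul_of_one_le_right hn h2
      linarith
  have hsum := Finset.sum_le_sum fun P (_ : P ∈ W) => hloc P
  rw [Finset.sum_add_distrib, Finset.sum_add_distrib, Finset.sum_add_distrib,
    Finset.sum_add_distrib, ← Finset.mul_sum, ← Finset.mul_sum] at hsum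
  -- the terms
  have t1 : ∑ P ∈ W, (if P ∈ sn then ((Is a x P).card : ℤ) else 0) =
      ∑ P ∈ sn, ((Is a x P).card : ℤ) := by
    rw [← Finset.sum_filter, Finset.filter_mem_eq_inter,
      Finset.inter_eq_right.2 (Finset.filter_subset _ W)]
  have t2 : ∑ P ∈ W, ∑ l, max 0 (-P.ord (x l)) ≤ ∑ l, (ht k (x l) : ℤ) := by
    rw [Finset.sum_comm]
    exact Finset.sum_le_sum fun l _ => sum_poles_le (x l) W
  have t3 : ∑ P ∈ W, (cp P : ℤ) ≤ ∑ P ∈ sc, (cp P : ℤ) := by
    calc ∑ P ∈ W, (cp P : ℤ) ≤ ∑ P ∈ W ∪ sc, (cp P : ℤ) :=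
          Finset.sum_le_sum_of_subset_of_nonneg Finset.subset_union_left
            (fun P _ _ => Int.natCast_nonneg _)
      _ = ∑ P ∈ sc, (cp P : ℤ) := by
          symm
          apply Finset.sum_subset Finset.subset_union_right
          intro P _ hP
          rw [hcp P hP]
          rfl
  have t4 : ∑ P ∈ W, (if P ∈ sb then (1 : ℤ) else 0) ≤ sb.card := by
    rw [← Finset.sum_filter, Finset.filter_mem_eq_inter, Finset.sum_const, nsmul_eq_mul, mul_one]
    exact_mod_cast Finset.card_le_card Finset.inter_subset_right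
  have t5 : ∀ l, ∑ P ∈ W, exc (a l) (x l) P ≤
      2 * (ht k (x l) : ℤ) + ∑ P ∈ sc, (cp P : ℤ) := fun l =>
    hram D cp sc hcp hDP N (a l) (x l) (ha l) hD (hx l) W
  have t5' : ∑ P ∈ W, ∑ l, exc (a l) (x l) P ≤
      2 * ∑ l, (ht k (x l) : ℤ) + n * ∑ P ∈ sc, (cp P : ℤ) := by
    rw [Finset.sum_comm]
    calc ∑ l, ∑ P ∈ W, exc (a l) (x l) P ≤
          ∑ l, (2 * (ht k (x l) : ℤ) + ∑ P ∈ sc, (cp P : ℤ)) :=
          Finset.sum_le_sum fun l _ => t5 l
      _ = _ := by
          rw [Finset.sum_add_distrib, ← Finset.mul_sum, Finset.sum_const, Finset.card_univ,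
            Fintype.card_fin, nsmul_eq_mul]
  -- the zeros
  have hzer : ∀ l, (N : ℤ) * (ht k (x l) : ℤ) =
      ∑ P ∈ W, ∑ j, max 0 (P.ord (x l - algebraMap k E (a l j))) := by
    intro l
    rw [Finset.sum_comm]
    have h1 : ∀ j, ∑ P ∈ W, max 0 (P.ord (x l - algebraMap k E (a l j))) = ht k (x l) := by
      intro j
      rw [← hZs l j]
      symm
      rw [← Finset.sum_subset (hZW l j)]
      · apply Finset.sum_congr rfl
        intro P hP
        have h2 := (P.ge_iff (hne l j)).1 ((hZ l j P).1 hP)
        exact (max_eq_right (by omega)).symm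
      · intro P _ hP
        have h2 : ¬ 1 ≤ P.ord (x l - algebraMap k E (a l j)) := fun h3 =>
          hP ((hZ l j P).2 ((P.ge_iff (hne l j)).2 h3))
        exact max_eq_left (by omega)
    rw [Finset.sum_congr rfl (fun j _ => h1 j), Finset.sum_const, Finset.card_univ,
      Fintype.card_fin, nsmul_eq_mul]
  have hzer2 : ∀ l, (N : ℤ) * (ht k (x l) : ℤ) ≤
      ∑ P ∈ W, (if l ∈ Is a x P then (1 : ℤ) else 0) + 2 * ∑ P ∈ W, exc (a l) (x l) P := by
    intro l
    rw [hzer l, Finset.mul_sum, ← Finset.sum_add_distrib]
    exact Finset.sum_le_sum fun P _ => zer_le a x P l (ha l) (hne l)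
  have hIs : ∑ l, ∑ P ∈ W, (if l ∈ Is a x P then (1 : ℤ) else 0) =
      ∑ P ∈ W, ((Is a x P).card : ℤ) := by
    rw [Finset.sum_comm]
    apply Finset.sum_congr rfl
    intro P _
    rw [← Finset.sum_filter, Finset.filter_mem_eq_inter, Finset.univ_inter, Finset.sum_const,
      nsmul_eq_mul, mul_one]
  have hall : (N : ℤ) * ∑ l, (ht k (x l) : ℤ) ≤ ∑ P ∈ W, ((Is a x P).card : ℤ) +
      2 * (2 * ∑ l, (ht k (x l) : ℤ) + n * ∑ P ∈ sc, (cp P : ℤ)) := by
    calc (N : ℤ) * ∑ l, (ht k (x l) : ℤ) = ∑ l, (N : ℤ) * (ht k (x l) : ℤ) := by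
          rw [Finset.mul_sum]
      _ ≤ ∑ l, (∑ P ∈ W, (if l ∈ Is a x P then (1 : ℤ) else 0) +
            2 * ∑ P ∈ W, exc (a l) (x l) P) := Finset.sum_le_sum fun l _ => hzer2 l
      _ = ∑ P ∈ W, ((Is a x P).card : ℤ) + 2 * ∑ l, ∑ P ∈ W, exc (a l) (x l) P := by
          rw [Finset.sum_add_distrib, hIs, ← Finset.mul_sum]
      _ ≤ _ := by
          rw [Finset.sum_comm] at t5'
          linarith
  have hn : (0 : ℤ) ≤ (n : ℤ) := Int.natCast_nonneg _
  have m2 := mul_le_mul_of_nonneg_left t2 hn
  have m3 := mul_le_mul_of_nonneg_left t3 hn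
  rw [t1] at hsum
  have hfin : ((N : ℤ) - 6 - n) * ∑ l, (ht k (x l) : ℤ) =
      (N : ℤ) * ∑ l, (ht k (x l) : ℤ) - 6 * ∑ l, (ht k (x l) : ℤ) -
        n * ∑ l, (ht k (x l) : ℤ) := by ring
  rw [hfin]
  have hfin2 : 4 * (n : ℤ) * ∑ P ∈ sc, (cp P : ℤ) = 4 * (n * ∑ P ∈ sc, (cp P : ℤ)) := by ring
  rw [hfin2]
  linarith

end Pool.Agent.PN.H40
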